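import Mathlib

set_option autoImplicit false

namespace Pool.Agent.Results.MP_a6ecd6_co.Counter

/-- `Q` is a latin hypercube: every line carries every symbol exactly once. -/
def IsLatin {d n : ℕ} (Q : (Fin d → Fin n) → Fin n) : Prop :=
  ∀ (x : Fin d → Fin n) (i : Fin d), Function.Bijective fun a => Q (Function.update x i a)

/-- `K` is a `k`-multiplex of `Q`. -/
def IsMultiplex {d n : ℕ} (Q : (Fin d → Fin n) → Fin n) (k : ℕ)
    (K : Multiset (Fin d → Fin n)) : Prop :=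
  K.card = k * n ∧ (∀ (i : Fin d) (a : Fin n), (K.filter fun x => x i = a).card = k) ∧
    ∀ s : Fin n, (K.filter fun x => Q x = s).card = k

/-- `K` is a `k`-plex of `Q`: a `k`-multiplex without repeated cells. -/
def IsPlex {d n : ℕ} (Q : (Fin d → Fin n) → Fin n) (k : ℕ)
    (K : Multiset (Fin d → Fin n)) : Prop :=
  IsMultiplex Q k K ∧ K.Nodup

def L : Fin 6 → Fin 6 → Fin 6 :=
  ![![5, 2, 3, 0, 4, 1], ![2, 4, 0, 5, 1, 3], ![3, 1, 5, 2, 0, 4], ![4, 3, 2, 1, 5, 0],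
    ![0, 5, 1, 4, 3, 2], ![1, 0, 4, 3, 2, 5]]

def Q0 (x : Fin 2 → Fin 6) : Fin 6 := L (x 0) (x 1)

def K0 : Multiset (Fin 2 → Fin 6) :=
  ↑[![0, 0], ![0, 1], ![0, 2], ![1, 0], ![1, 1], ![1, 4], ![2, 2], ![2, 4], ![2, 5],
    ![3, 1], ![3, 3], ![3, 5], ![4, 0], ![4, 2], ![4, 3], ![5, 3], ![5, 4], ![5, 5],
    ![0, 0], ![0, 1], ![1, 0], ![1, 5], ![2, 1], ![2, 4], ![3, 4], ![3, 5], ![4, 2], ![4, 3],
    ![5, 2], (![5, 3] : Fin 2 → Fin 6)]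

lemma noTrans : ∀ a b : Fin 6, a ≠ b → L 0 a ≠ L 1 b →
    ∀ c : Fin 6, a ≠ c → b ≠ c → L 0 a ≠ L 2 c → L 1 b ≠ L 2 c →
    ∀ d : Fin 6, a ≠ d → b ≠ d → c ≠ d → L 0 a ≠ L 3 d → L 1 b ≠ L 3 d → L 2 c ≠ L 3 d →
    ∀ e : Fin 6, a ≠ e → b ≠ e → c ≠ e → d ≠ e →
      L 0 a ≠ L 4 e → L 1 b ≠ L 4 e → L 2 c ≠ L 4 e → L 3 d ≠ L 4 e →
    ∀ f : Fin 6, a ≠ f → b ≠ f → c ≠ f → d ≠ f → e ≠ f →
      L 0 a ≠ L 5 f → L 1 b ≠ L 5 f → L 2 c ≠ L 5 f → L 3 d ≠ L 5 f → L 4 e ≠ L 5 f → False := by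
  set_option synthInstance.maxSize 4000 in
  decide +kernel

lemma one_left (S : Finset (Fin 2 → Fin 6)) (p : (Fin 2 → Fin 6) → Prop) [DecidablePred p]
    (h6 : (Finset.univ.filter p).card = 6) (h5 : (S.filter p).card = 5) :
    ((Finset.univ \ S).filter p).card = 1 := by
  have : (Finset.univ \ S).filter p = Finset.univ.filter p \ S.filter p := by
    ext x; simp only [Finset.mem_filter, Finset.mem_sdiff, Finset.mem_univ, true_and]; tauto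
  rw [this, Finset.card_sdiff_of_subset (Finset.filter_subset_filter _ (Finset.subset_univ _)),
    h6, h5]

theorem result : ∃ d n k : ℕ, 2 ≤ d ∧ 1 ≤ n ∧ 1 ≤ k ∧ k ≤ n ^ (d - 1) ∧
    ∃ Q : (Fin d → Fin n) → Fin n, IsLatin Q ∧ (∃ K, IsMultiplex Q k K) ∧
      ¬ ∃ K, IsPlex Q k K := by
  refine ⟨2, 6, 5, le_rfl, by norm_num, by norm_num, by norm_num, Q0, ?_, ⟨K0, ?_⟩, ?_⟩
  · unfold IsLatin; decide +kernel
  · unfold IsMultiplex; decide +kernel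
  · rintro ⟨K, ⟨-, h1, h2⟩, hn⟩
    set S : Finset (Fin 2 → Fin 6) := ⟨K, hn⟩ with hS
    have hA : ∀ (i : Fin 2) (a : Fin 6), ((Finset.univ \ S).filter fun x => x i = a).card = 1 :=
      fun i a => one_left S _ (by revert i a; decide +kernel) (h1 i a)
    have hB : ∀ s : Fin 6, ((Finset.univ \ S).filter fun x => Q0 x = s).card = 1 :=
      fun s => one_left S _ (by revert s; decide +kernel) (h2 s)
    have hex : ∀ a : Fin 6, ∃ x ∈ Finset.univ \ S, x 0 = a := fun a => by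
      obtain ⟨x, hx⟩ := Finset.card_pos.1 (by rw [hA 0 a]; norm_num)
      exact ⟨x, (Finset.mem_filter.1 hx).1, (Finset.mem_filter.1 hx).2⟩
    choose x hx hx0 using hex
    have hne : ∀ a b : Fin 6, a ≠ b → x a ≠ x b := fun a b hab h => hab (by
      rw [← hx0 a, ← hx0 b, h])
    have c1 : ∀ a b : Fin 6, a ≠ b → x a 1 ≠ x b 1 := fun a b hab h =>
      hne a b hab (Finset.card_le_one.1 (hA 1 (x b 1)).le _ (Finset.mem_filter.2 ⟨hx a, h⟩) _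
        (Finset.mem_filter.2 ⟨hx b, rfl⟩))
    have c2 : ∀ a b : Fin 6, a ≠ b → L a (x a 1) ≠ L b (x b 1) := fun a b hab h =>
      hne a b hab (Finset.card_le_one.1 (hB (Q0 (x b))).le _
        (Finset.mem_filter.2 ⟨hx a, by simp only [Q0, hx0, h]⟩) _
        (Finset.mem_filter.2 ⟨hx b, rfl⟩))
    refine noTrans (x 0 1) (x 1 1) ?_ ?_ (x 2 1) ?_ ?_ ?_ ?_ (x 3 1) ?_ ?_ ?_ ?_ ?_ ?_ (x 4 1)
      ?_ ?_ ?_ ?_ ?_ ?_ ?_ ?_ (x 5 1) ?_ ?_ ?_ ?_ ?_ ?_ ?_ ?_ ?_ ?_ <;>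
    first | exact c1 _ _ (by decide) | exact c2 _ _ (by decide)

end Pool.Agent.Results.MP_a6ecd6_co.Counter
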